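import Pool.Agent.V8H11.JP.Fin

set_option autoImplicit false

/-!
# Set intersection queries: the space of structures which read `t` cells depending on all sets

A family of sets in two halves, of total size at most `N`, is preprocessed. The memory has `s`
*joint* cells of `w` bits, which may be arbitrary functions of the whole family, and in addition an
unlimited memory with arbitrary functions of the first half alone and of the second half alone. A
query names a set `i` of the first half and a set `j` of the second half and asks whether they
intersect. Joint cells are probed one after the other; the address of the next joint cell, and
whether one is probed at all, may be an arbitrary function of `i`, `j`, of the first half, of the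
contents of the joint cells which have been read so far and of public random bits. Then the query is
answered by an arbitrary communication protocol of at most `b` bits between the two halves, which
may depend on the contents read; for instance, `T` adaptive probes of cells of the one-sided memory
are such a protocol with `b = w T`. A wrong answer after at most `t` joint probes has probability at
most `1 / (2 * 10 ^ 6)`, and if the sets are disjoint, then at most `t` joint cells are probed with
probability at least `1 / 2`. Then

  `N ^ (t + 1) ≤ (10 ^ (7 t + 20) (b + w + l) (w + l) ^ 4) ^ (t + 1) * s ^ t`, `l = ⌈log₂ N⌉`,

that is `s = Ω~((N / b) ^ (1 + 1 / t))` for fixed `t`.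

For `t = 1` this is the kind of bound of the starting results `TwoDimensionalTable` and
`AdaptiveJointProbe` (one joint probe); the starting result `CellProbeTradeoff` gives
`N ^ (1 + 1 / t)` if *all* cells are counted (`t` probes in total, `s` cells in total). Here only
the joint cells are counted.

Proof. The bits of the families are independent. (1) A bilinear inequality: if all degrees of the
graph `S` on `k + k` vertices are at most `Δ`, if `q` is an integer with `α q Δ ≤ 4` and
`1 / p + 1 / q = 1`, then for random sets `x`, `y` with density `α` and nonnegative functions `f`,
`g` the expectation of `f(x) g(y)` on the event that no edge of `S` is in `x × y` is at most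
`exp (- α ^ 2 |S| / 8) ‖f‖_p ‖g‖_p`, for an arbitrary number of edges (`Ker.lean`). It gives a direct
product theorem for disjointness protocols on the edges of a graph with small degrees. (2) Cell
sampling, `t` times: all queries which read the same cell are cut into chunks of a suitable size, and
chunks are chosen at random, so that the degrees of the graph of the surviving queries stay small
(`Samp2.lean`). The addresses depend on the first half only, so that an advice of about `k polylog`
bits (the chosen chunks and the contents of their cells) and the first half determine a graph with
degrees at most `L = polylog` and almost `k L` edges, and everything which is read from the joint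
cells on these queries (`Iter.lean`). (3) For a fixed advice the events of the first half are
disjoint rectangles, and Hölder's inequality shows that few of the predicted answers are wrong with
probability `exp (- c k L)` only, which is too small for the number of advices (`Main.lean`).
-/

namespace Pool.Agent.Results.MP_f326ae_lc.JointProbes

open Pool.Agent.V8H11.JP

/-- For all `t`, `w ≥ 1` and all `N ≤ 2 ^ l` there are `k` and `u` such that every random data
structure with `s ≥ 1` joint cells of `w` bits and protocols of `b` bits, which decides emptiness of
the intersections with at most `t` joint probes (see `SolvesProbes`) for families of `2 k` subsets of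
a universe with `u` elements, of total size at most `N`, satisfies
`N ^ (t + 1) ≤ (10 ^ (7 t + 20) (b + w + l) (w + l) ^ 4) ^ (t + 1) * s ^ t`. -/
theorem result (t N w b l : ℕ) (ht : 1 ≤ t) (hw : 1 ≤ w) (hl : N ≤ 2 ^ l) :
    ∃ k u : ℕ, u ≤ (10 ^ (7 * t + 20) * (b + w + l) * (w + l) ^ 4) ^ 2 ∧
      ∀ (s : ℕ), 1 ≤ s → ∀ (Ω : Type) [Fintype Ω] (p : Ω → ℝ) (D : Ω → ProbeDS k u w s),
        SolvesProbes b N t p D →
        N ^ (t + 1) ≤ (10 ^ (7 * t + 20) * (b + w + l) * (w + l) ^ 4) ^ (t + 1) * s ^ t :=
  joint_probes t N w b l ht hw hl

end Pool.Agent.Results.MP_f326ae_lc.JointProbes
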