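import Pool.Agent.V8H11.SI.Final

/-!
# SetIntersection: every data structure reads `N ^ 2 / (T polylog)` joint words

The data structures are all data structures in the cell probe model (`Scheme`): words of `w` bits
with arbitrary contents, adaptive queries, free and non-uniform computation. Let a query name two
sets `i ≠ j` of the family `F`. A word is *simple* for the pair at `F` (`Scheme.Simple`) if,
all other sets and the sizes of these two sets being fixed, its content is, as a function of
the two sets, constant on each of at most `2 ^ b` rectangles which partition the space of the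
pairs of sets. The *joint* words of the query (`Scheme.joint`) are the words which the query reads
on `F` and which are not simple for its pair.

(1) For `4160 C b T ≤ N` there are families of total size `N` with `m ≥ N / (3120 C b T)` sets such
that for EVERY data structure and EVERY pair `i ≠ j` the query `(i, j)` reads on the average at
least `(q - 1 / 2) T / w` joint words, if it is answered within `C (T + op)` probes on the part `q`
of these families.

(2) So if a random data structure answers every query with probability at least `3 / 4` within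
`C (T + op)` probes, and all queries together read at most `R` joint words on every family, then
`N ^ 2 ≤ 10 ^ 8 C ^ 2 b ^ 2 w T R`.

(3) If every word is an arbitrary function of at most `r` sets of the family and of digests of `d`
bits of all other sets, `w + d ≤ b`, then `N ^ 2 ≤ 10 ^ 8 C ^ 2 b ^ 2 w T r ^ 2 S₂`, where `S₂` is
the number of the words which depend on at least two sets in this way; the words which depend on
one set and on digests of all other sets are free.

Proof. The sets are graphs of random functions from `{1, …, s}` to `{1, …, K}`, `K = 130 C b`,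
`s = 16 T K`. Fix all sets but two, and guess the contents of the first `T / w` joint words which
the query reads. The other words split the space of pairs into rectangles. By an inequality for
two functions `f`, `g` on `K` points,
`E f(x) g(y) [x ≠ y] ≤ (1 - 1 / (4 K)) ‖f‖_p ‖g‖_p` with `p = 1 + 4 / K`, and its tensor power, a
fixed set is the intersection of the two sets on a small part of every rectangle only, and as `p` is
close to `1` this can be summed over all the rectangles.
-/

set_option autoImplicit false

namespace Pool.Agent.Results.MP_f326ae_lc.JointReads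

open Finset Pool.Agent.V8H11.SI

open Classical in
theorem result (N w b C T : ℕ) (hw : 1 ≤ w) (hb : 1 ≤ b) (hC : 1 ≤ C) (hT : 1 ≤ T)
    (hN : 4160 * (C * b * T) ≤ N) :
    ∃ (m u : ℕ) (𝓕 : Finset (Fin m → Finset (Fin u))),
      m ≤ N ∧ u ≤ N ^ 2 ∧ N ≤ 3120 * (C * b * T) * m ∧ 𝓕.Nonempty ∧
      (∀ F ∈ 𝓕, ∑ i, (F i).card = N) ∧
      -- (1) every query reads joint words
      (∀ (S : ℕ) (D : Scheme m u S w) (i j : Fin m), i ≠ j →
        (T : ℝ) * (((𝓕.filter fun F => D.Answers F i j (C * (T + (F i ∩ F j).card))).card : ℝ) -
          (𝓕.card : ℝ) / 2) ≤ w * ∑ F ∈ 𝓕, ((D.joint b F i j).card : ℝ)) ∧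
      -- (2) all queries together
      (∀ (S : ℕ) (Ω : Type) [Fintype Ω] (p : Ω → ℝ) (D : Ω → Scheme m u S w),
        Solves p D N C T → ∀ R : ℝ,
        (∀ (ω : Ω) (F : Fin m → Finset (Fin u)), ∑ i, (F i).card = N →
          ∑ i, ∑ j ∈ univ.erase i, (((D ω).joint b F i j).card : ℝ) ≤ R) →
        (N : ℝ) ^ 2 ≤ 10 ^ 8 * ((C : ℝ) ^ 2 * b ^ 2 * w * T * R)) ∧
      -- (3) words which depend on few sets and on digests of the others
      (∀ (S : ℕ) (Ω : Type) [Fintype Ω] (p : Ω → ℝ) (D : Ω → Scheme m u S w),
        Solves p D N C T → ∀ (d r S₂ : ℕ) (I : Ω → Fin S → Finset (Fin m)), w + d ≤ b →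
        (∀ ω a, (D ω).LocalWith d a (I ω a)) → (∀ ω a, (I ω a).card ≤ r) →
        (∀ ω, (univ.filter fun a => 2 ≤ (I ω a).card).card ≤ S₂) →
        (N : ℝ) ^ 2 ≤ 10 ^ 8 * ((C : ℝ) ^ 2 * b ^ 2 * w * T * ((r : ℝ) ^ 2 * S₂))) := by
  obtain ⟨m, u, 𝓕, h1, h2, h3, h4, h5, h6, h7⟩ := final N w b C T hw hb hC hT hN
  refine ⟨m, u, 𝓕, h2, h3, h4, h5, h6, h7, ?_, ?_⟩
  · intro S Ω _ p D hD R hR
    exact rand_bound hC hb hT hw h1 h4 h5 h6 h7 hD fun ω F hF => hR ω F (h6 F hF)
  · intro S Ω _ p D hD d r S₂ I hd hI hr hS
    refine rand_bound hC hb hT hw h1 h4 h5 h6 h7 hD fun ω F _ => ?_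
    refine le_trans (joint_local (hI ω) hd F) ?_
    have e1 : ∀ a : Fin S, ((I ω a).card : ℝ) * ((I ω a).card - 1) ≤
        if 2 ≤ (I ω a).card then (r : ℝ) ^ 2 else 0 := by
      intro a
      have hra : ((I ω a).card : ℝ) ≤ r := by exact_mod_cast hr ω a
      split_ifs with h8
      · have h9 : (2 : ℝ) ≤ (I ω a).card := by exact_mod_cast h8
        nlinarith
      · have h9 : (I ω a).card = 0 ∨ (I ω a).card = 1 := by omega
        rcases h9 with h9 | h9 <;> simp [h9]
    calc ∑ a, ((I ω a).card : ℝ) * ((I ω a).card - 1)
        ≤ ∑ a, (if 2 ≤ (I ω a).card then (r : ℝ) ^ 2 else 0) := sum_le_sum fun a _ => e1 a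
      _ = (univ.filter fun a => 2 ≤ (I ω a).card).card * (r : ℝ) ^ 2 := by
          rw [← sum_filter, sum_const, nsmul_eq_mul]
      _ ≤ (r : ℝ) ^ 2 * S₂ := by
          rw [mul_comm]
          have : (((univ.filter fun a => 2 ≤ (I ω a).card).card : ℕ) : ℝ) ≤ S₂ := by
            exact_mod_cast hS ω
          gcongr

end Pool.Agent.Results.MP_f326ae_lc.JointReads
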