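import Pool.Agent.V8H11.LI.RunFin

set_option autoImplicit false

/-!
# Set intersection queries: space `N ^ 2 / T` for structures that read one run of joint memory

A family of sets in two halves, of total size at most `N`, is preprocessed. There is a *joint* memory
of `s` bits, which may be arbitrary functions of the whole family. A query names a set `i` of the
first half and a set `j` of the second half, and asks for the list of the common elements. It is
answered by an arbitrary algorithm (`RunAlg`) which can look at

* `b` bits, each of which is an arbitrary function of the first half alone or of the second half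
  alone; for instance, `T` adaptive probes of `w`-bit cells of an unlimited memory whose cells are
  functions of one half are `b = w T` such bits;
* `g ≤ T / 64` single bits, each of which is an arbitrary function of the whole family; for instance,
  `T / (64 w)` adaptive probes of an unlimited memory whose cells are functions of the whole family
  (pointers, ranks, hash values);
* `t` runs of `r` consecutive bits of the joint memory.

The order is arbitrary, and everything which the algorithm does next (also where the next run
begins) may depend on `i`, `j`, on public random bits and on everything seen before. Only queries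
with at most `4 T` common elements have to be answered, each with probability at least `1 / 2`. Then,
for `T ≥ 32 l + 128`, `l = ⌈log₂ N⌉`,

  `N ^ (t + 1) * r ^ t ≤ C ^ (t + 1) * (s + r) ^ t`,
  `C = 10 ^ (6 t + 15) (b + T) (⌊r / T⌋ + 1) ^ 2 (l + 1) ^ 2`.

(1) Let `t = 1` and `b = r = c T`: the algorithm looks at `O(T)` words of one-sided memory, at
`T / (64 w)` arbitrary joint words, and reads one run of `O(T)` words of the joint memory
(`c = O(log N)`). Then `s = Ω~(N ^ 2 / T)`, which is the bound of Q1. It is attained, up to a
polylogarithmic factor, in this model, with `g = 0`: store the lists with at most `4 T` elements for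
all pairs of the at most `N / T` sets with more than `T` elements in slots of `O(T)` words; look up
the elements of the smaller sets in the other set.
(2) In general `s = Ω~(T (N / T) ^ (1 + 1 / t))` if `b` and `r` are of order `T polylog N`.
(3) Let `T = 32 l + 128` and let `r = w` be the length of a word: `t` joint words of `w` bits are read,
`b` is arbitrary, and only lists of `O(log N)` elements are needed. Then the number of joint words
is `Ω~((N / b) ^ (1 + 1 / t))`.

In the earlier results `AdaptiveJointProbe` (`t = 1`) and `JointProbes` for emptiness queries single
joint cells are read, the addresses are functions of the first half and of the contents read, and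
the space bound is `(N / T) ^ (1 + 1 / t)`. Here the addresses may depend on both halves by means of
the `b` bits and the `g` joint bits.

Proof. The runs are contained in cells of `2 r` bits, of which there are `s / r + 1`. The set `i` of
each half has the elements `(e, x (i, e))`, `e < M`, where `x (i, e) < K` is random and `M = K T`, so
that two sets have `T` common elements on average. A correct list with at most `4 T ≤ M / 2` elements
says for `M / 2` pairs of coordinates that they are different.
(a) A bilinear inequality (`Ker.lean`): if the graph `S` on the coordinates of the two halves has
degrees at most `Δ`, `2 q Δ ≤ K` and `1 / p + 1 / q = 1`, then for nonnegative functions `f`, `g` the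
expectation of `f(x) g(y)` on the event that `x` and `y` are different at all edges of `S` is at most
`exp (- |S| / (4 K)) ‖f‖_p ‖g‖_p`. (b) Here one can sum over all leaves of the algorithms of a whole
set `D` of queries: the `p`-norms of a function restricted to the two parts given by one bit have sum
at most `2 ^ (1 / q) ‖f‖_p`. So `|D|` algorithms with `b` bits cost a factor `2 ^ (b |D| / q)`
(`Tree.lean`), and for a fixed table of contents of joint cells all queries of `D` are answered
correctly with probability at most `2 ^ (- 7 T |D| / 64)` if `q ≥ 64 b / T` (`Direct.lean`).
(c) Cell sampling, `t` times, with chunks of queries which read the same cell (`Samp.lean`): if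
`k ^ 2 / 4` queries are answered correctly, then there are a table of `k polylog` cells and a set `D` of
`k polylog` queries with degrees at most `polylog` which are answered correctly by means of this
table. As every answer gives `T / 10` bits, which is more than `2 l + g`, one can afford to guess the
table, the set `D`, and all single joint bits (`Main.lean`); this is where the proof needs that the
intersections are listed.
-/

namespace Pool.Agent.Results.MP_f326ae_lc.JointRuns

open Pool.Agent.V8H11.LI

/-- (1) For all `t ≥ 1`, `r`, `b`, `N ≤ 2 ^ l`, `T ≥ 32 l + 128` and `g ≤ T / 64` there are `k` and `u`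
such that every random data structure with `s ≥ 1` bits of joint memory, which lists the
intersections with at most `4 T` elements with at most `b` bits of one half, at most `g` single joint
bits and at most `t` runs of `r` consecutive bits of the joint memory (see `SolvesRuns`) for families
of `2 k` subsets of a universe with `u` elements, of total size at most `N`, satisfies
`N ^ (t + 1) * r ^ t ≤ C ^ (t + 1) * (s + r) ^ t`.
(2) In particular, for one run and `b = r = c T` the number of bits of the joint memory satisfies
`N ^ 2 ≤ 10 ^ 44 * c ^ 5 * (l + 1) ^ 4 * T * (s + c * T)`. -/
theorem result :
    (∀ t T r b g N l : ℕ, 1 ≤ t → 32 * l + 128 ≤ T → 64 * g ≤ T → N ≤ 2 ^ l →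
      ∃ k u : ℕ, u ≤ (10 ^ (6 * t + 15) * (b + T) * (r / T + 1) ^ 2 * (l + 1) ^ 2) ^ 2 ∧
        ∀ (s : ℕ), 1 ≤ s → ∀ (Ω : Type) [Fintype Ω] (p : Ω → ℝ) (D : Ω → RunDS k u s r),
          SolvesRuns b g t (4 * T) N p D →
          N ^ (t + 1) * r ^ t ≤
            (10 ^ (6 * t + 15) * (b + T) * (r / T + 1) ^ 2 * (l + 1) ^ 2) ^ (t + 1) *
              (s + r) ^ t) ∧
    ∀ T c g N l : ℕ, 32 * l + 128 ≤ T → 64 * g ≤ T → 1 ≤ c → N ≤ 2 ^ l →
      ∃ k u : ℕ, u ≤ (10 ^ 22 * c ^ 3 * T * (l + 1) ^ 2) ^ 2 ∧
        ∀ (s : ℕ), 1 ≤ s → ∀ (Ω : Type) [Fintype Ω] (p : Ω → ℝ) (D : Ω → RunDS k u s (c * T)),
          SolvesRuns (c * T) g 1 (4 * T) N p D →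
          N ^ 2 ≤ 10 ^ 44 * c ^ 5 * (l + 1) ^ 4 * T * (s + c * T) :=
  ⟨fun t T r b g N l ht hT hg hl => joint_runs t T r b g N l ht hT hg hl,
    fun T c g N l hT hg hc hl => one_run T c g N l hT hg hc hl⟩

end Pool.Agent.Results.MP_f326ae_lc.JointRuns
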