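import Pool.Agent.V8H41.TF.Back

set_option autoImplicit false

/-!
# SetIntersection: a normal form of the conjecture

The conjecture says that every data structure which lists, for arbitrary families of sets of total
size `N`, the intersection of any two sets in time `O(T + op)` needs space `N ^ 2 / (T polylog N)`,
for all functions `T`. We consider it in the cell probe model (`Pool.Agent.N606.SI`) and show that it
is equivalent to a statement without output sensitivity, with one size of sets, a universe as small
as the number of sets, and one query time.

The objects of the normal form are `n` subsets of `{0, …, n - 1}` with at most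
`k = n / (log n) ^ a` elements each. The structures have to list the intersections with at most
`t = n / (log n) ^ (2 a)` elements (two random sets with `k` elements have `k ^ 2 / n = t` common
elements), with `C t` probes; nothing is required for other families or larger intersections. All
answers together can be stored in `n ^ 2 t` cells.

* (weak form) for all word lengths and all `C` there are *some* `a` and `b` such that *deterministic*
  structures need `n ^ 3 / (log n) ^ b` cells, for the numbers `n` of a *sparse* set, for instance
  the numbers `2 ^ 2 ^ m`;
* (strong form) for all word lengths and all `C` and *all* large `a`, *randomised* structures, which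
  answer every single query correctly only with probability `1 / (log n) ^ e`, with any `e`, need
  `n ^ 3 / (log n) ^ (5 a + e + 2)` cells, for all large `n`.

Both are equivalent to the conjecture. So it suffices to prove the weak form, and to refute the
conjecture (for a suitable `T`) it suffices to refute the strong form.

Proof of (conjecture implies strong form). By diagonalisation, the exponent of the logarithm in the
conjecture can be chosen independently of `T`. Let a randomised structure for tables be given. The
sets of a family of total size about `n t` are divided: the intersections with the few sets with more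
than `k` elements are stored, the sets with less than `t / 2` elements are united to sets with at
most `t` elements. There remain at most `n` rows. For two rows with `op` common elements we hash to
`4 op / t + 16` parts with the universe `{0, …, n - 1}` each, such that the two rows have at most `t`
common hash values in every part, and few collisions (second moments). Polylogarithmically many hash
functions suffice for all pairs of rows, and polylogarithmically many values of the random parameter
of the given structure for all queries to a table; which of them are good for a pair of rows is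
stored in `n ^ 2` polylog `n` cells. The common hash values are translated with lists of the elements
of each row with a given hash value. The weak form implies the conjecture by the transfer principle
of the starting file `OneExponent`.
-/

namespace Pool.Agent.Results.MP_f326ae_lc.TableNormalForm

open Pool.Agent.N606.SI Pool.Agent.V8H41.TF

/-- The conjecture in the cell probe model, for all query times `T`. -/
def Conjecture : Prop := ∀ T : ℕ → ℕ, (∀ N, 1 ≤ T N) → Tradeoff Set.univ T

/-- `n / (log n) ^ a`, rounded down -/
noncomputable def sparse (n a : ℕ) : ℕ := ⌊(n : ℝ) / Real.log n ^ a⌋₊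

/-- The weak form, for deterministic structures and the numbers `n` in `A`. -/
def WeakForm (A : Set ℕ) : Prop :=
  ∀ β C : ℕ, 1 ≤ β → ∃ a b n₀ : ℕ, ∀ n ∈ A, n₀ ≤ n → ∀ s : ℕ,
    HasTable β n (sparse n a) (sparse n (2 * a)) (C * sparse n (2 * a)) s →
      (n : ℝ) ^ 3 ≤ s * Real.log n ^ b

/-- The strong form, for randomised structures with success probability `1 / (log n) ^ e`. -/
def StrongForm : Prop :=
  ∀ β C : ℕ, 1 ≤ β → ∃ a₀ : ℕ, ∀ a ≥ a₀, ∀ e : ℕ, ∃ n₀ : ℕ, ∀ n : ℕ, n₀ ≤ n → ∀ s : ℕ,
    HasRandTable β n (sparse n a) (sparse n (2 * a)) (C * sparse n (2 * a)) s
      (1 / Real.log n ^ e) →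
      (n : ℝ) ^ 3 ≤ s * Real.log n ^ (5 * a + e + 2)

theorem strong_of_conjecture (h : Conjecture) : StrongForm := by
  intro β C hβ
  obtain ⟨c, N₀, hc⟩ := uniform h (β + 4) (20 * C + 40) (by omega)
  refine ⟨c + 1, fun a ha e => ?_⟩
  obtain ⟨n₁, hn₁⟩ := forward' hβ hc a ha e
  obtain ⟨n₂, hn₂⟩ := log_big 1 0
  refine ⟨n₁ + n₂, fun n hn s hs => ?_⟩
  have h1 := hn₁ n (by omega) s hs
  have h2 : 1 ≤ Real.log n := (hn₂ n (by omega)).1
  refine h1.trans ?_
  have h3 := pow_le_pow_right₀ h2 (show 4 * a + c + e + 3 ≤ 5 * a + e + 2 by omega)
  gcongr

theorem weak_of_strong (h : StrongForm) (A : Set ℕ) : WeakForm A := by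
  classical
  intro β C hβ
  obtain ⟨a, ha⟩ := h β C hβ
  obtain ⟨n₀, hn₀⟩ := ha a le_rfl 0
  refine ⟨a, 5 * a + 0 + 2, n₀, fun n _ hn s hs => hn₀ n hn s ?_⟩
  obtain ⟨D, hD⟩ := hs
  refine ⟨Unit, inferInstance, fun _ => 1, fun _ => D, fun _ => zero_le_one, by simp, ?_⟩
  intro F hF i j hij
  have h1 := hD F hF i j hij
  rw [Finset.sum_congr rfl fun _ _ => if_pos h1]
  simp

theorem result (A : Set ℕ) (K : ℕ)
    (hA : ∃ x₀ : ℕ, ∀ x ≥ x₀, ∃ n ∈ A, x ≤ n ∧ n ≤ x ^ K) :
    (Conjecture ↔ WeakForm A) ∧ (Conjecture ↔ StrongForm) := by
  have h1 : WeakForm A → Conjecture := fun h T hT => backward' hA h T hT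
  exact ⟨⟨fun h => weak_of_strong (strong_of_conjecture h) A, h1⟩,
    ⟨strong_of_conjecture, fun h => h1 (weak_of_strong h A)⟩⟩

end Pool.Agent.Results.MP_f326ae_lc.TableNormalForm
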